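import Pool.Agent.Helper47.SR.Goals

/-!
# Project SR, packet CNT
-/

namespace Pool.Agent.Helper56.SR

open Finset Pool.Agent.Helper47.SR

theorem goal_CNT : Goal_CNT := by
  intro n G hG A _
  have h1 : ∀ γ : Equiv.Perm (Fin n), #(mv γ A ∩ A) = #(A.filter (fun u => γ u ∈ A)) := by
    intro γ
    have : mv γ A ∩ A = (A.filter (fun u => γ u ∈ A)).map γ.toEmbedding := by
      ext x
      simp only [mem_inter, mem_map, mem_filter, Equiv.coe_toEmbedding]
      constructor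
      · rintro ⟨⟨u, hu, rfl⟩, hx⟩
        exact ⟨u, ⟨hu, hx⟩, rfl⟩
      · rintro ⟨u, ⟨hu, hx⟩, rfl⟩
        exact ⟨⟨u, hu, rfl⟩, hx⟩
    rw [this, card_map]
  simp_rw [h1, card_filter]
  rw [sum_comm]
  refine (sum_le_card_nsmul A _ (#A - 1) ?_).trans (by rw [smul_eq_mul])
  intro u hu
  rw [← card_filter, ← card_erase_of_mem hu]
  refine card_le_card_of_injOn (fun γ => γ u) ?_ ?_
  · intro γ hγ
    simp only [coe_filter, mem_filter, mem_univ, true_and, Set.mem_setOf_eq] at hγ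
    simp only [coe_erase, Set.mem_diff, mem_coe, Set.mem_singleton_iff]
    exact ⟨hγ.2, hG γ hγ.1.1 hγ.1.2 u⟩
  · intro γ hγ γ' hγ' h
    simp only [coe_filter, mem_filter, mem_univ, true_and, Set.mem_setOf_eq] at hγ hγ'
    by_contra hne
    have h2 : γ'⁻¹ * γ ≠ 1 := by
      intro h3
      exact hne (inv_mul_eq_one.1 h3).symm
    apply hG (γ'⁻¹ * γ) (G.mul_mem (G.inv_mem hγ'.1.1) hγ.1.1) h2 u
    rw [Equiv.Perm.mul_apply, Equiv.Perm.inv_eq_iff_eq]
    exact h

end Pool.Agent.Helper56.SR
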